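import Pool.Agent.H14R2.RC.Defs
import Pool.Agent.H14R2.RC.S.CNT

namespace RC14
open scoped InnerProductSpace
open Finset

namespace EXPO1

noncomputable section

variable {n : ℕ}

/-- one step of the action of a letter -/
def st (x : Fin 8 → Equiv.Perm (Fin n)) (s : Fin 8 × Bool) (v : Fin n) : Fin n :=
  if s.2 then x s.1 v else (x s.1)⁻¹ v

/-- the constraint `st x s v = v'` in the form `x i p = r` -/
def ed (s : Fin 8 × Bool) (v v' : Fin n) : Fin 8 × Fin n × Fin n :=
  if s.2 then (s.1, v, v') else (s.1, v', v)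

/-- `x` satisfies all the constraints in `C` -/
def Sat (x : Fin 8 → Equiv.Perm (Fin n)) (C : Finset (Fin 8 × Fin n × Fin n)) : Prop :=
  ∀ c ∈ C, x c.1 c.2.1 = c.2.2

instance (x : Fin 8 → Equiv.Perm (Fin n)) (C : Finset (Fin 8 × Fin n × Fin n)) :
    Decidable (Sat x C) := by
  unfold Sat; infer_instance

lemma st_iff (x : Fin 8 → Equiv.Perm (Fin n)) (s : Fin 8 × Bool) (v v' : Fin n) :
    x (ed s v v').1 (ed s v v').2.1 = (ed s v v').2.2 ↔ st x s v = v' := by
  obtain ⟨i, b⟩ := s
  cases b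
  · simp only [ed, st, Bool.false_eq_true, if_false]
    constructor
    · intro h; rw [← h]; simp
    · intro h; rw [← h]; simp
  · simp [ed, st]

lemma sat_insert (x : Fin 8 → Equiv.Perm (Fin n)) (C : Finset (Fin 8 × Fin n × Fin n))
    (s : Fin 8 × Bool) (v v' : Fin n) :
    Sat x (insert (ed s v v') C) ↔ Sat x C ∧ st x s v = v' := by
  unfold Sat
  rw [Finset.forall_mem_insert, st_iff]
  exact and_comm

/-- the end point of the walk -/
def go (x : Fin 8 → Equiv.Perm (Fin n)) : List (Fin 8 × Bool) → Fin n → Fin n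
  | [], v => v
  | s :: w, v => go x w (st x s v)

lemma go_append (x : Fin 8 → Equiv.Perm (Fin n)) (l₁ l₂ : List (Fin 8 × Bool)) (v : Fin n) :
    go x (l₁ ++ l₂) v = go x l₂ (go x l₁ v) := by
  induction l₁ generalizing v with
  | nil => rfl
  | cons s l ih => simp only [List.cons_append, go]; exact ih _

lemma prod_go (x : Fin 8 → Equiv.Perm (Fin n)) (L : List (Fin 8 × Bool)) (v : Fin n) :
    ((L.map fun p => cond p.2 (x p.1) (x p.1)⁻¹).prod) v = go x L.reverse v := by
  induction L generalizing v with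
  | nil => simp [go]
  | cons s l ih =>
    rw [List.map_cons, List.prod_cons, Equiv.Perm.mul_apply, ih, List.reverse_cons, go_append]
    simp only [go, st]
    cases s.2 <;> simp

lemma lift_go (x : Fin 8 → Equiv.Perm (Fin n)) (u : FreeGroup (Fin 8)) (v : Fin n) :
    FreeGroup.lift x u v = go x u.toWord.reverse v := by
  rw [← prod_go]
  conv_lhs => rw [← FreeGroup.mk_toWord (x := u)]
  rw [FreeGroup.lift_mk]

/-- exploration: the value `Φ R` at the moment when the walk first hits the recorded set -/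
def hit (x : Fin 8 → Equiv.Perm (Fin n)) (Φ : Finset (Fin n) → ℝ) :
    List (Fin 8 × Bool) → Fin n → Finset (Fin n) → ℝ
  | [], _, _ => 0
  | s :: w, v, R => if st x s v ∈ R then Φ R else hit x Φ w (st x s v) (insert (st x s v) R)

/-- weighted number of sequences of successful explorations -/
def K (x : Fin 8 → Equiv.Perm (Fin n)) (w : List (Fin 8 × Bool)) : ℕ → Finset (Fin n) → ℝ
  | 0, _ => 1
  | p + 1, R => ∑ a ∈ Rᶜ, hit x (K x w p) w a (insert a R)

lemma hit_nonneg (x : Fin 8 → Equiv.Perm (Fin n)) (Φ : Finset (Fin n) → ℝ)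
    (hΦ : ∀ R, 0 ≤ Φ R) (w : List (Fin 8 × Bool)) (v : Fin n) (R : Finset (Fin n)) :
    0 ≤ hit x Φ w v R := by
  induction w generalizing v R with
  | nil => simp [hit]
  | cons s w ih =>
    simp only [hit]
    split_ifs
    · exact hΦ _
    · exact ih _ _

lemma K_nonneg (x : Fin 8 → Equiv.Perm (Fin n)) (w : List (Fin 8 × Bool)) (p : ℕ)
    (R : Finset (Fin n)) : 0 ≤ K x w p R := by
  induction p generalizing R with
  | zero => simp [K]
  | succ p ih =>
    simp only [K]
    exact Finset.sum_nonneg fun a _ => hit_nonneg x _ ih _ _ _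

/-- lower bound for a walk which ends in the recorded set -/
lemma hit_ge (x : Fin 8 → Equiv.Perm (Fin n)) (Φ : Finset (Fin n) → ℝ) (c : ℝ)
    (w : List (Fin 8 × Bool)) (v : Fin n) (R : Finset (Fin n)) (hw : w ≠ [])
    (hR : go x w v ∈ R) (hΦ : ∀ R' : Finset (Fin n), R'.card < R.card + w.length → c ≤ Φ R') :
    c ≤ hit x Φ w v R := by
  induction w generalizing v R with
  | nil => exact absurd rfl hw
  | cons s w ih =>
    simp only [hit]
    split_ifs with h
    · exact hΦ R (by simp)
    · have hw' : w ≠ [] := by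
        rintro rfl
        exact h (by simpa [go] using hR)
      refine ih _ _ hw' (Finset.mem_insert_of_mem (by simpa [go] using hR)) ?_
      intro R' hR'
      refine hΦ R' ?_
      rw [Finset.card_insert_of_notMem h] at hR'
      simp only [List.length_cons]
      omega

lemma K_ge (x : Fin 8 → Equiv.Perm (Fin n)) (w : List (Fin 8 × Bool)) (hw : w ≠ [])
    (ℓ N F : ℕ) (hℓ : w.length ≤ ℓ) (hF : F ≤ #{a | go x w a = a}) (hNF : N ≤ F) (p : ℕ)
    (R : Finset (Fin n)) (hR : R.card + p * ℓ ≤ N) :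
    ((F - N : ℕ) : ℝ) ^ p ≤ K x w p R := by
  induction p generalizing R with
  | zero => simp [K]
  | succ p ih =>
    simp only [K]
    have hsub : ({a | go x w a = a} : Finset (Fin n)) \ R ⊆ Rᶜ := by
      intro a ha
      rw [Finset.mem_sdiff] at ha
      simpa using ha.2
    have h1 : ∑ a ∈ ({a | go x w a = a} : Finset (Fin n)) \ R, ((F - N : ℕ) : ℝ) ^ p ≤
        ∑ a ∈ Rᶜ, hit x (K x w p) w a (insert a R) := by
      refine le_trans (Finset.sum_le_sum fun a ha => ?_)
        (Finset.sum_le_sum_of_subset_of_nonneg hsub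
          fun a _ _ => hit_nonneg x _ (K_nonneg x w p) _ _ _)
      rw [Finset.mem_sdiff, Finset.mem_filter] at ha
      refine hit_ge x _ _ w a _ hw (by rw [ha.1.2]; exact Finset.mem_insert_self _ _) ?_
      intro R' hR'
      refine ih R' ?_
      rw [Finset.card_insert_of_notMem ha.2] at hR'
      have : (p + 1) * ℓ = p * ℓ + ℓ := by ring
      omega
    refine le_trans ?_ h1
    rw [Finset.sum_const, nsmul_eq_mul, pow_succ, mul_comm]
    refine mul_le_mul_of_nonneg_right ?_ (by positivity)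
    have h2 := Finset.le_card_sdiff R ({a | go x w a = a} : Finset (Fin n))
    have h3 : F - N ≤ (({a | go x w a = a} : Finset (Fin n)) \ R).card := by
      have : 0 ≤ (p + 1) * ℓ := Nat.zero_le _
      omega
    exact_mod_cast h3

/-- all vertices of `C` are in `R` -/
def VC (C : Finset (Fin 8 × Fin n × Fin n)) (R : Finset (Fin n)) : Prop :=
  ∀ c ∈ C, c.2.1 ∈ R ∧ c.2.2 ∈ R

lemma ed_vert {s : Fin 8 × Bool} {v v' : Fin n} {R : Finset (Fin n)} (h : v ∈ R)
    (h' : v' ∈ R) : (ed s v v').2.1 ∈ R ∧ (ed s v v').2.2 ∈ R := by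
  unfold ed
  split_ifs <;> simp [h, h']

lemma not_ed_mem {s : Fin 8 × Bool} {v : Fin n} {R : Finset (Fin n)} (h : v ∉ R)
    {C : Finset (Fin 8 × Fin n × Fin n)} (hC : VC C R) (y : Fin n) : ed s v y ∉ C := by
  intro hm
  have := hC _ hm
  unfold ed at this
  split_ifs at this
  · exact h this.1
  · exact h this.2

lemma ed_ne {s s' : Fin 8 × Bool} (hs : s.1 = s'.1 → s.2 = s'.2) {v v' : Fin n} (hv : v ≠ v')
    (y : Fin n) : ed s' v' y ≠ ed s v v' := by
  obtain ⟨i, b⟩ := s
  obtain ⟨i', b'⟩ := s'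
  simp only at hs
  intro h
  cases b <;> cases b' <;> simp only [ed, if_true, if_false, Bool.false_eq_true, Prod.mk.injEq] at h
  · exact hv h.2.2.symm
  · exact absurd (hs h.1.symm) (by decide)
  · exact absurd (hs h.1.symm) (by decide)
  · exact hv h.2.1.symm

/-- the bound for one exploration -/
def T (n N : ℕ) (r : ℝ) (k : ℕ) : ℝ := k * N * r ^ k / n

lemma T_succ (n N : ℕ) (ρ : ℝ) (hn : 0 < n) (hr : 1 ≤ n * ρ) (k : ℕ) :
    N * ρ + n * ρ * T n N (n * ρ) k ≤ T n N (n * ρ) (k + 1) := by
  unfold T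
  have hn' : (0 : ℝ) < n := by exact_mod_cast hn
  have h1 : (n : ℝ) * ρ * (k * N * (n * ρ) ^ k / n) = k * N * (n * ρ) ^ (k + 1) / n := by
    rw [pow_succ]; ring
  have h2 : (N : ℝ) * ρ = N * (n * ρ) / n := by
    field_simp
  rw [h1, h2, ← add_div]
  refine div_le_div_of_nonneg_right ?_ hn'.le
  push_cast
  have h3 : (n : ℝ) * ρ ≤ (n * ρ) ^ (k + 1) := by
    calc (n : ℝ) * ρ = (n * ρ) ^ 1 := (pow_one _).symm
      _ ≤ (n * ρ) ^ (k + 1) := pow_le_pow_right₀ hr (by omega)
  have hN : (0 : ℝ) ≤ N := Nat.cast_nonneg _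
  nlinarith [mul_le_mul_of_nonneg_left h3 hN]

lemma T_mono (n N : ℕ) (r : ℝ) (hr : 1 ≤ r) {j k : ℕ} (h : j ≤ k) : T n N r j ≤ T n N r k := by
  unfold T
  have h1 : (j : ℝ) ≤ k := by exact_mod_cast h
  have h2 : r ^ j ≤ r ^ k := pow_le_pow_right₀ hr h
  have h3 : (0 : ℝ) ≤ r ^ j := pow_nonneg (by linarith) _
  gcongr

lemma T_nonneg (n N : ℕ) (r : ℝ) (hr : 0 ≤ r) (k : ℕ) : 0 ≤ T n N r k := by
  unfold T; positivity

/-- splitting the sum over `x ⊨ C` according to the next vertex -/
lemma sum_split (C : Finset (Fin 8 × Fin n × Fin n)) (s : Fin 8 × Bool) (v : Fin n)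
    (f : (Fin 8 → Equiv.Perm (Fin n)) → Fin n → ℝ) :
    ∑ x with Sat x C, f x (st x s v) =
      ∑ v', ∑ x with Sat x (insert (ed s v v') C), f x v' := by
  rw [← Finset.sum_fiberwise (s := Finset.univ.filter fun x => Sat x C)
    (g := fun x : Fin 8 → Equiv.Perm (Fin n) => st x s v)]
  refine Finset.sum_congr rfl fun v' _ => ?_
  refine Finset.sum_congr_of_eq_on_inter ?_ ?_ ?_ <;>
    simp +contextual [sat_insert]

lemma hit_sum_le (Φ : (Fin 8 → Equiv.Perm (Fin n)) → Finset (Fin n) → ℝ) (N c₁ c₂ : ℕ)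
    (D ρ : ℝ) (hn : 0 < n) (hρ : 0 ≤ ρ) (hD : 0 ≤ D) (hr : 1 ≤ n * ρ) (hc : c₂ ≤ N)
    (hΦ : ∀ C R, VC C R → C.card ≤ c₁ → R.card ≤ c₂ →
      ∑ x with Sat x C, Φ x R ≤ D * ρ ^ C.card)
    (w : List (Fin 8 × Bool)) (hw : w.IsChain (fun a b => a.1 = b.1 → a.2 = b.2))
    (v : Fin n) (R : Finset (Fin n)) (C : Finset (Fin 8 × Fin n × Fin n))
    (hv : v ∈ R) (hVC : VC C R) (hhead : ∀ s ∈ w.head?, ∀ y, ed s v y ∉ C)
    (h1 : C.card + w.length ≤ c₁) (h2 : R.card + w.length ≤ c₂ + 1) :
    ∑ x with Sat x C, hit x (Φ x) w v R ≤ D * ρ ^ C.card * T n N (n * ρ) w.length := by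
  induction w generalizing v R C with
  | nil =>
    simp [hit, T]
  | cons s w ih =>
    have hs : ∀ y, ed s v y ∉ C := hhead s (by simp)
    simp only [hit]
    rw [sum_split C s v (fun x v' => if v' ∈ R then Φ x R else hit x (Φ x) w v' (insert v' R))]
    have hcard : ∀ v', (insert (ed s v v') C).card = C.card + 1 := fun v' =>
      Finset.card_insert_of_notMem (hs v')
    have key : ∀ v' : Fin n, ∑ x with Sat x (insert (ed s v v') C),
        (if v' ∈ R then Φ x R else hit x (Φ x) w v' (insert v' R)) ≤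
        (if v' ∈ R then D * ρ ^ (C.card + 1) else 0) +
          D * ρ ^ (C.card + 1) * T n N (n * ρ) w.length := by
      intro v'
      have hT := T_nonneg n N (n * ρ) (by linarith) w.length
      by_cases h : v' ∈ R
      · simp only [h, if_true]
        have := hΦ (insert (ed s v v') C) R (by
          intro c hc
          rw [Finset.mem_insert] at hc
          rcases hc with rfl | hc
          · exact ed_vert hv h
          · exact hVC c hc) (by rw [hcard]; simp only [List.length_cons] at h1; omega)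
          (by simp only [List.length_cons] at h2; omega)
        rw [hcard] at this
        refine this.trans ?_
        have : 0 ≤ D * ρ ^ (C.card + 1) * T n N (n * ρ) w.length := by positivity
        linarith
      · simp only [h, if_false, zero_add]
        have := ih hw.tail v' (insert v' R) (insert (ed s v v') C)
          (Finset.mem_insert_self _ _) (by
            intro c hc
            rw [Finset.mem_insert] at hc
            rcases hc with rfl | hc
            · exact ed_vert (Finset.mem_insert_of_mem hv) (Finset.mem_insert_self _ _)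
            · exact ⟨Finset.mem_insert_of_mem (hVC c hc).1,
                Finset.mem_insert_of_mem (hVC c hc).2⟩) (by
            intro s' hs' y hmem
            rw [Finset.mem_insert] at hmem
            rcases hmem with hmem | hmem
            · refine ed_ne (s := s) (s' := s') ?_ (v := v) (v' := v')
                (fun e => h (e ▸ hv)) y hmem
              cases w with
              | nil => simp at hs'
              | cons a w =>
                simp only [List.head?_cons, Option.mem_def, Option.some.injEq] at hs'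
                subst hs'
                rw [List.isChain_cons_cons] at hw
                exact hw.1
            · exact not_ed_mem h hVC y hmem)
          (by rw [hcard]; simp only [List.length_cons] at h1; omega)
          (by rw [Finset.card_insert_of_notMem h]; simp only [List.length_cons] at h2; omega)
        rw [hcard] at this
        exact this
    refine (Finset.sum_le_sum fun v' _ => key v').trans ?_
    rw [Finset.sum_add_distrib, ← Finset.sum_filter, Finset.sum_const, Finset.sum_const,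
      nsmul_eq_mul, nsmul_eq_mul, Finset.card_univ, Fintype.card_fin]
    have hfil : (Finset.univ.filter fun v' => v' ∈ R) = R := by ext; simp
    rw [hfil]
    have hRN : (R.card : ℝ) ≤ N := by
      have : R.card ≤ N := by simp only [List.length_cons] at h2; omega
      exact_mod_cast this
    have hX : 0 ≤ D * ρ ^ C.card := by positivity
    have hTs := T_succ n N ρ hn hr w.length
    calc (R.card : ℝ) * (D * ρ ^ (C.card + 1)) +
          n * (D * ρ ^ (C.card + 1) * T n N (n * ρ) w.length)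
        ≤ (N : ℝ) * (D * ρ ^ (C.card + 1)) +
          n * (D * ρ ^ (C.card + 1) * T n N (n * ρ) w.length) := by
          gcongr
      _ = D * ρ ^ C.card * (N * ρ + n * ρ * T n N (n * ρ) w.length) := by
          rw [pow_succ]; ring
      _ ≤ D * ρ ^ C.card * T n N (n * ρ) (w.length + 1) :=
          mul_le_mul_of_nonneg_left hTs hX
      _ = D * ρ ^ C.card * T n N (n * ρ) (s :: w).length := by simp

lemma K_sum_le (w : List (Fin 8 × Bool)) (hw : w.IsChain (fun a b => a.1 = b.1 → a.2 = b.2))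
    (ℓ N : ℕ) (hℓ : w.length ≤ ℓ) (hN : N < n) (p : ℕ)
    (C : Finset (Fin 8 × Fin n × Fin n)) (R : Finset (Fin n)) (hVC : VC C R)
    (h1 : C.card + p * ℓ ≤ N) (h2 : R.card + p * ℓ ≤ N) :
    ∑ x with Sat x C, K x w p R ≤
      ((n.factorial : ℝ) ^ 8 * (n * T n N (n * ((n : ℝ) - N)⁻¹) ℓ) ^ p) *
        (((n : ℝ) - N)⁻¹) ^ C.card := by
  have hNn : (0 : ℝ) < (n : ℝ) - N := by
    have : (N : ℝ) < n := by exact_mod_cast hN
    linarith
  have hρ : 0 ≤ ((n : ℝ) - N)⁻¹ := by positivity
  have hr : 1 ≤ (n : ℝ) * ((n : ℝ) - N)⁻¹ := by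
    rw [← div_eq_mul_inv, le_div_iff₀ hNn]
    have : (0 : ℝ) ≤ N := Nat.cast_nonneg _
    linarith
  have hn : 0 < n := by omega
  have hT0 := T_nonneg n N (n * ((n : ℝ) - N)⁻¹) (by linarith) ℓ
  induction p generalizing C R with
  | zero =>
    simp only [K, pow_zero, mul_one]
    rw [Finset.sum_const, nsmul_eq_mul, mul_one, inv_pow, ← div_eq_mul_inv,
      le_div_iff₀ (by positivity)]
    have := CNT n N hN C (by omega)
    rw [Nat.card_eq_fintype_card, Fintype.card_subtype] at this
    have h3 : ((n - N : ℕ) : ℝ) = (n : ℝ) - N := Nat.cast_sub hN.le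
    rw [← h3]
    exact_mod_cast this
  | succ p ih =>
    simp only [K]
    rw [Finset.sum_comm]
    have key : ∀ a ∈ Rᶜ, ∑ x with Sat x C, hit x (K x w p) w a (insert a R) ≤
        ((n.factorial : ℝ) ^ 8 * (n * T n N (n * ((n : ℝ) - N)⁻¹) ℓ) ^ p) *
        (((n : ℝ) - N)⁻¹) ^ C.card * T n N (n * ((n : ℝ) - N)⁻¹) ℓ := by
      intro a ha
      rw [Finset.mem_compl] at ha
      have hp : (p + 1) * ℓ = p * ℓ + ℓ := by ring
      refine (hit_sum_le (fun x => K x w p) N (N - p * ℓ) (N - p * ℓ)
        ((n.factorial : ℝ) ^ 8 * (n * T n N (n * ((n : ℝ) - N)⁻¹) ℓ) ^ p) (((n : ℝ) - N)⁻¹)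
        hn hρ (by positivity) hr (by omega) ?_ w hw a (insert a R) C
        (Finset.mem_insert_self _ _) ?_ ?_ ?_ ?_).trans ?_
      · intro C' R' hV hc hr'
        exact ih C' R' hV (by omega) (by omega)
      · intro c hc
        exact ⟨Finset.mem_insert_of_mem (hVC c hc).1, Finset.mem_insert_of_mem (hVC c hc).2⟩
      · intro s _ y
        exact not_ed_mem ha hVC y
      · omega
      · rw [Finset.card_insert_of_notMem ha]; omega
      · exact mul_le_mul_of_nonneg_left (T_mono n N _ hr hℓ) (by positivity)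
    refine (Finset.sum_le_sum key).trans ?_
    rw [Finset.sum_const, nsmul_eq_mul]
    have hc : ((Rᶜ).card : ℝ) ≤ n := by
      have := Finset.card_le_univ (Rᶜ)
      rw [Fintype.card_fin] at this
      exact_mod_cast this
    refine (mul_le_mul_of_nonneg_right hc (by positivity)).trans (le_of_eq ?_)
    rw [pow_succ]; ring

end

end EXPO1

open EXPO1 in
/-- few tuples of permutations have a given nontrivial word with many fixed points -/
theorem EXPO1 (n ℓ p F : ℕ) (u : FreeGroup (Fin 8)) (hu : u ≠ 1) (hℓ : u.norm ≤ ℓ)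
    (hF : p * ℓ < F) (hn : F ≤ n) :
    Nat.card {x : Fin 8 → Equiv.Perm (Fin n) // F ≤ nfix (FreeGroup.lift x u)} *
      (F - p * ℓ) ^ p * (n - p * ℓ) ^ (p * ℓ) ≤
      n.factorial ^ 8 * (p * ℓ ^ 2) ^ p * n ^ (p * ℓ) := by
  set N := p * ℓ with hNdef
  set w := u.toWord.reverse with hw
  have hN : N < n := by omega
  have hchain : w.IsChain (fun a b : Fin 8 × Bool => a.1 = b.1 → a.2 = b.2) := by
    rw [hw, List.isChain_reverse]
    have := FreeGroup.isReduced_toWord (x := u)
    refine List.IsChain.imp ?_ this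
    intro a b h e
    exact (h e.symm).symm
  have hwne : w ≠ [] := by
    intro h
    apply hu
    rw [hw, List.reverse_eq_nil_iff] at h
    exact FreeGroup.toWord_eq_nil_iff.1 h
  have hwl : w.length ≤ ℓ := by
    rw [hw, List.length_reverse]
    exact hℓ
  have hup := K_sum_le w hchain ℓ N hwl hN p ∅ ∅ (by intro c hc; simp at hc)
    (by simp [hNdef]) (by simp [hNdef])
  have hNn : (0 : ℝ) < (n : ℝ) - N := by
    have : (N : ℝ) < n := by exact_mod_cast hN
    linarith
  have hsat : (Finset.univ.filter fun x : Fin 8 → Equiv.Perm (Fin n) => Sat x ∅) =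
      Finset.univ := by
    ext x; simp [Sat]
  rw [hsat, Finset.card_empty, pow_zero, mul_one] at hup
  rw [Nat.card_eq_fintype_card, Fintype.card_subtype]
  have hlow : ∀ x ∈ (Finset.univ.filter fun x : Fin 8 → Equiv.Perm (Fin n) =>
      F ≤ nfix (FreeGroup.lift x u)), ((F - N : ℕ) : ℝ) ^ p ≤ K x w p ∅ := by
    intro x hx
    rw [Finset.mem_filter] at hx
    refine K_ge x w hwne ℓ N F hwl ?_ hF.le p ∅ (by simp [hNdef])
    refine hx.2.trans (le_of_eq ?_)
    unfold nfix
    congr 1
    ext a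
    simp only [Finset.mem_filter, Finset.mem_univ, true_and]
    rw [lift_go]
  have h1 : (#{x : Fin 8 → Equiv.Perm (Fin n) | F ≤ nfix (FreeGroup.lift x u)} : ℝ) *
      ((F - N : ℕ) : ℝ) ^ p ≤
      (n.factorial : ℝ) ^ 8 * (n * T n N (n * ((n : ℝ) - N)⁻¹) ℓ) ^ p := by
    refine le_trans ?_ hup
    rw [← nsmul_eq_mul, ← Finset.sum_const]
    refine (Finset.sum_le_sum hlow).trans ?_
    exact Finset.sum_le_sum_of_subset_of_nonneg (Finset.subset_univ _)
      fun x _ _ => K_nonneg x w p ∅
  have hn0 : (n : ℝ) ≠ 0 := by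
    have : 0 < n := by omega
    positivity
  have h2 : (n : ℝ) * T n N (n * ((n : ℝ) - N)⁻¹) ℓ =
      (p * ℓ ^ 2 : ℕ) * ((n : ℝ) ^ ℓ * (((n : ℝ) - N) ^ ℓ)⁻¹) := by
    unfold T
    rw [mul_pow, inv_pow, hNdef]
    push_cast
    field_simp
  rw [h2, mul_pow, mul_pow, inv_pow, ← pow_mul, ← pow_mul, mul_comm ℓ p, ← hNdef] at h1
  have h4 : ((n - N : ℕ) : ℝ) = (n : ℝ) - N := Nat.cast_sub hN.le
  have h3 : (#{x : Fin 8 → Equiv.Perm (Fin n) | F ≤ nfix (FreeGroup.lift x u)} : ℝ) *
      ((F - N : ℕ) : ℝ) ^ p * ((n - N : ℕ) : ℝ) ^ N ≤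
      (n.factorial : ℝ) ^ 8 * (p * ℓ ^ 2 : ℕ) ^ p * (n : ℝ) ^ N := by
    rw [h4]
    refine (mul_le_mul_of_nonneg_right h1 (by positivity)).trans (le_of_eq ?_)
    have : ((n : ℝ) - N) ^ N ≠ 0 := by positivity
    field_simp
  exact_mod_cast h3

end RC14
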